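import Pool.Agent.T2q87.IP.Win

/-!
Sums of a set of integers in a window and of a set of primes of a relative density which is a power of the logarithm:
the lower bound.
-/

set_option autoImplicit false
set_option maxHeartbeats 1000000

open Finset Filter Topology

namespace Pool.Agent.T2q87.IP

/-- the set of the sums -/
def sums (Q P : Finset ℕ) : Finset ℕ := (Q ×ˢ P).image (fun x => x.1 + x.2)

theorem mem_sums {Q P : Finset ℕ} {n : ℕ} : n ∈ sums Q P ↔ ∃ q ∈ Q, ∃ p ∈ P, n = q + p := by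
  unfold sums
  rw [mem_image]
  constructor
  · rintro ⟨⟨q, p⟩, h, rfl⟩
    rw [mem_product] at h
    exact ⟨q, h.1, p, h.2, rfl⟩
  · rintro ⟨q, hq, p, hp, rfl⟩
    exact ⟨(q, p), mem_product.2 ⟨hq, hp⟩, rfl⟩

theorem win_bound (a : ℕ) (ca : ℝ) (hca : 0 < ca) : ∃ c : ℝ, 0 < c ∧ ∃ J₀ : ℕ, ∀ J : ℕ, J₀ ≤ J →
    ∀ (x : ℕ) (Q P : Finset ℕ), (∀ q ∈ Q, x < q ∧ q ≤ x + J) →
    (∀ p ∈ P, p.Prime ∧ 2 * J < p ^ 2 ∧ p ≤ J) → ca * J / Real.log J ^ (a + 1) ≤ P.card →
    Real.log J ^ 2 ≤ Q.card →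
    c * J / (Real.log J ^ a * Real.log (Real.log J) ^ 2) ≤ (sums Q P).card := by
  classical
  obtain ⟨D, hD, J₁, hsv⟩ := win_sieve
  obtain ⟨J₂, hJ₂⟩ := eventually_atTop.1 (ev_num (8 * D / ca))
  set c1 : ℝ := ca / (8 * D) * Real.exp (-(a + 2)) with hc1
  have hc10 : 0 < c1 := by positivity
  refine ⟨min c1 (ca / 8), lt_min hc10 (by positivity), max (max J₁ J₂) 3, fun J hJ x Q P hQ hP hPc hQc => ?_⟩
  have hsv' := hsv J ((le_max_left _ _).trans ((le_max_left _ _).trans hJ))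
  obtain ⟨g1, g2, g3⟩ := hJ₂ J ((le_max_right _ _).trans ((le_max_left _ _).trans hJ))
  have hJ3 : 3 ≤ J := (le_max_right _ _).trans hJ
  set L := Real.log (J : ℝ) with hL
  set ℓ := Real.log L with hℓ
  have hL0 : 0 < L := by linarith
  have hℓ0 : 0 < ℓ := by linarith
  have hJ0 : (0 : ℝ) < J := by exact_mod_cast (by omega : 0 < J)
  set k := ⌈ℓ⌉₊ + 1 with hk
  have hk1 : ℓ ≤ k := by
    have := Nat.le_ceil ℓ
    rw [hk]
    push_cast
    linarith
  have hk2 : ((k + 1 : ℕ) : ℝ) ≤ 4 * ℓ := by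
    have := Nat.ceil_lt_add_one hℓ0.le
    rw [hk]
    push_cast
    linarith
  have hk0 : (0 : ℝ) < ((k + 1 : ℕ) : ℝ) := by positivity
  set S := sums Q P with hS
  set R : ℕ → Finset ℕ := fun n => Q.filter (fun q => ∃ p ∈ P, n = q + p) with hR
  set E := D * ((k + 1 : ℕ) : ℝ) * ℓ / L with hE
  have hE0 : 0 < E := by positivity
  have hQ0 : 0 < Q.card := by
    have : (0 : ℝ) < Q.card := lt_of_lt_of_le (by positivity) hQc
    exact_mod_cast this
  have hQr : (0 : ℝ) < Q.card := by exact_mod_cast hQ0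
  have hsum : (Q.card : ℝ) * P.card ≤ ∑ n ∈ S, ((R n).card : ℝ) := by
    have h1 : (Q ×ˢ P).card ≤ (S.sigma R).card := by
      apply card_le_card_of_injOn (fun x => (⟨x.1 + x.2, x.1⟩ : Σ _ : ℕ, ℕ))
      · intro y hy
        have hy' := mem_product.1 (mem_coe.1 hy)
        rw [mem_coe, mem_sigma]
        refine ⟨mem_sums.2 ⟨y.1, hy'.1, y.2, hy'.2, rfl⟩, ?_⟩
        rw [hR]
        exact mem_filter.2 ⟨hy'.1, y.2, hy'.2, rfl⟩
      · intro y _ z _ h
        simp only [Sigma.mk.injEq, heq_eq_eq] at h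
        refine Prod.ext h.2 ?_
        have h1 := h.1
        have h2 := h.2
        omega
    rw [card_product, card_sigma] at h1
    exact_mod_cast h1
  have hL2 : (1 : ℝ) ≤ L ^ a := one_le_pow₀ g2
  by_cases hcase : ((k + 1 : ℕ) : ℝ) * S.card ≤ Q.card * P.card / 2
  · have hpop := popular Q S R (fun n _ => filter_subset _ _) k (6 * J * E ^ (k + 1)) P.card (by
      intro T hT
      rw [mem_powersetCard] at hT
      refine hsv' (k + 1) (by omega) hk2 x T P hT.2 (fun q hq => hQ q (hT.1 hq)) hP _ ?_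
      intro n hn q hq
      rw [mem_filter] at hn
      exact (mem_filter.1 (hn.2 hq)).2) (Nat.cast_nonneg _) hQ0 (by positivity) hsum hcase
    -- the conclusion
    refine le_trans (b := c1 * J / (L ^ a * ℓ ^ 2)) ?_ ?_
    · apply div_le_div_of_nonneg_right _ (by positivity)
      exact mul_le_mul_of_nonneg_right (min_le_left _ _) hJ0.le
    by_contra hcon
    push Not at hcon
    set G : ℝ := ca * J / (8 * D * ℓ ^ 2 * L ^ a) with hG
    have hG0 : 0 < G := by positivity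
    have e1 : c1 * J / (L ^ a * ℓ ^ 2) = G * Real.exp (-(a + 2)) := by
      rw [hc1, hG]
      field_simp
    rw [e1] at hcon
    have e2 : G * E ≤ (P.card : ℝ) / 2 := by
      have f1 : G * E ≤ (ca * J / L ^ (a + 1)) / 2 := by
        rw [hG, hE]
        have f2 : ca * J / (8 * D * ℓ ^ 2 * L ^ a) * (D * ((k + 1 : ℕ) : ℝ) * ℓ / L) =
            (ca * J / L ^ (a + 1)) * (((k + 1 : ℕ) : ℝ) / (8 * ℓ)) := by
          field_simp
          ring
        rw [f2]
        have f3 : ((k + 1 : ℕ) : ℝ) / (8 * ℓ) ≤ 1 / 2 := by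
          rw [div_le_div_iff₀ (by positivity) (by norm_num)]
          linarith
        calc (ca * J / L ^ (a + 1)) * (((k + 1 : ℕ) : ℝ) / (8 * ℓ)) ≤
            (ca * J / L ^ (a + 1)) * (1 / 2) := mul_le_mul_of_nonneg_left f3 (by positivity)
          _ = _ := by ring
      linarith
    have e3 : (G * E) ^ (k + 1) ≤ (S.card : ℝ) ^ k * (6 * J * E ^ (k + 1)) :=
      (pow_le_pow_left₀ (by positivity) e2 _).trans hpop
    have e4 : G ^ (k + 1) ≤ (S.card : ℝ) ^ k * (6 * J) := by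
      rw [mul_pow] at e3
      have : (S.card : ℝ) ^ k * (6 * J * E ^ (k + 1)) = ((S.card : ℝ) ^ k * (6 * J)) * E ^ (k + 1) := by
        ring
      rw [this] at e3
      exact le_of_mul_le_mul_right e3 (by positivity)
    have e5 : G ^ (k + 1) ≤ (G * Real.exp (-(a + 2))) ^ k * (6 * J) := by
      refine e4.trans ?_
      gcongr
    have e6 : G ≤ Real.exp (-(a + 2)) ^ k * (6 * J) := by
      rw [pow_succ, mul_pow] at e5
      have : G ^ k * Real.exp (-(a + 2)) ^ k * (6 * J) = G ^ k * (Real.exp (-(a + 2)) ^ k * (6 * J)) := by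
        ring
      rw [this] at e5
      exact le_of_mul_le_mul_left e5 (by positivity)
    have e7 : Real.exp (-(a + 2)) ^ k ≤ 1 / L ^ (a + 2) := by
      rw [← Real.exp_nat_mul]
      have f1 : (k : ℝ) * (-(a + 2)) ≤ -(((a + 2 : ℕ) : ℝ) * ℓ) := by
        push_cast
        have : 0 ≤ ((a : ℝ) + 2) * (k - ℓ) := mul_nonneg (by positivity) (by linarith)
        linarith
      refine (Real.exp_le_exp.2 f1).trans (le_of_eq ?_)
      rw [Real.exp_neg, Real.exp_nat_mul, hℓ, Real.exp_log hL0, one_div]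
    have e8 : ca * J / (8 * D * ℓ ^ 2 * L ^ a) ≤ 1 / L ^ (a + 2) * (6 * J) := by
      refine e6.trans ?_
      exact mul_le_mul_of_nonneg_right e7 (by positivity)
    have e9 : ca * L ^ 2 ≤ 48 * D * ℓ ^ 2 := by
      rw [one_div, inv_mul_eq_div, div_le_div_iff₀ (by positivity) (by positivity)] at e8
      have f1 : ca * J * L ^ (a + 2) = (ca * L ^ 2) * (J * L ^ a) := by ring
      have f2 : 6 * J * (8 * D * ℓ ^ 2 * L ^ a) = (48 * D * ℓ ^ 2) * (J * L ^ a) := by ring
      rw [f1, f2] at e8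
      exact le_of_mul_le_mul_right e8 (by positivity)
    have e10 : 96 * D * ℓ ^ 2 ≤ ca * L := by
      have : 8 * D / ca * (12 * ℓ ^ 2) = 96 * D * ℓ ^ 2 / ca := by ring
      rw [this, div_le_iff₀ hca] at g3
      linarith
    have e11 : L ≤ L ^ 2 := by nlinarith
    have e12 : 0 < D * ℓ ^ 2 := by positivity
    nlinarith
  · push Not at hcase
    refine le_trans (b := ca / 8 * J / (L ^ a * ℓ ^ 2)) ?_ ?_
    · apply div_le_div_of_nonneg_right _ (by positivity)
      exact mul_le_mul_of_nonneg_right (min_le_right _ _) hJ0.le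
    have e1 : L ^ 2 * (ca * J / L ^ (a + 1)) / 2 ≤ (4 * ℓ) * S.card := by
      calc L ^ 2 * (ca * J / L ^ (a + 1)) / 2 ≤ Q.card * P.card / 2 := by gcongr
        _ ≤ ((k + 1 : ℕ) : ℝ) * S.card := hcase.le
        _ ≤ _ := by gcongr
    have e2 : L ^ 2 * (ca * J / L ^ (a + 1)) / 2 = (4 * ℓ) * (ca / 8 * J * L / (L ^ a * ℓ)) := by
      field_simp
      ring
    rw [e2] at e1
    have e3 := le_of_mul_le_mul_left e1 (by positivity)
    refine le_trans ?_ e3
    rw [div_le_div_iff₀ (by positivity) (by positivity)]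
    have f1 : ca / 8 * J * (L ^ a * ℓ) = (ca / 8 * J * L ^ a * ℓ) * 1 := by ring
    have f2 : ca / 8 * J * L * (L ^ a * ℓ ^ 2) = (ca / 8 * J * L ^ a * ℓ) * (L * ℓ) := by ring
    rw [f1, f2]
    apply mul_le_mul_of_nonneg_left _ (by positivity)
    nlinarith

end Pool.Agent.T2q87.IP
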