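import Pool.Agent.T2q87.IP.Spr
import Pool.Agent.T2q87.IP.WinB

/-!
Sums of a small iterated prime and an iterated prime: all but a factor `(log log X) ^ a (log log log X) ^ 2` of the
even numbers.
-/

set_option autoImplicit false
set_option maxHeartbeats 1000000

open Finset Filter Topology

namespace Pool.Agent.T2q87.IP

open Pool.Agent.TH882.IX

/-- powers of logarithms -/
theorem ev_log_pow (m : ℕ) (c : ℝ) (hc : 0 < c) : ∀ᶠ J : ℕ in atTop, Real.log (J : ℝ) ^ m ≤ c * J :=
  ev_pow_log m c hc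

/-- enough small iterated primes beyond the square root -/
theorem small_primes (a : ℕ) : ∃ c : ℝ, 0 < c ∧ ∀ᶠ J : ℕ in atTop,
    c * J / Real.log J ^ (a + 1) ≤ (((ap a J).filter (fun p => 2 * J < p ^ 2)).card : ℝ) := by
  classical
  obtain ⟨ca, hca, N₂, h2⟩ := ap_lower a
  have tN : Tendsto (fun N : ℕ => (N : ℝ)) atTop atTop := tendsto_natCast_atTop_atTop
  have tL : Tendsto (fun N : ℕ => Real.log (N : ℝ)) atTop atTop := Real.tendsto_log_atTop.comp tN
  refine ⟨ca / 2, by positivity, ?_⟩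
  filter_upwards [eventually_ge_atTop N₂, tL.eventually_ge_atTop 1, eventually_ge_atTop 2,
    ev_pow_log (2 * a + 2) (ca ^ 2 / 64) (by positivity)] with J g1 g2 g3 g4
  have h := h2 J g1
  have hJ0 : (0 : ℝ) < J := by exact_mod_cast (by omega : 0 < J)
  set L := Real.log (J : ℝ) with hL
  have hL0 : 0 < L := by linarith
  set s := Nat.sqrt (2 * J) with hs
  have h3 : ap a J ⊆ (ap a J).filter (fun p => 2 * J < p ^ 2) ∪ Icc 1 s := by
    intro p hp
    rw [mem_union, mem_filter, mem_Icc]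
    by_cases h4 : 2 * J < p ^ 2
    · exact Or.inl ⟨hp, h4⟩
    · right
      unfold ap at hp
      rw [mem_filter, mem_Icc] at hp
      refine ⟨hp.1.1, ?_⟩
      rw [hs, Nat.le_sqrt']
      omega
  have h4 := (card_le_card h3).trans (card_union_le _ _)
  rw [Nat.card_Icc, Nat.add_sub_cancel] at h4
  have h5 : ((ap a J).card : ℝ) ≤ (((ap a J).filter (fun p => 2 * J < p ^ 2)).card : ℝ) + s := by
    exact_mod_cast h4
  have h6 : (s : ℝ) ≤ ca / 2 * J / L ^ (a + 1) := by
    have h7 : (s : ℝ) ^ 2 ≤ 2 * J := by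
      have := Nat.sqrt_le' (2 * J)
      exact_mod_cast this
    have h8 : (2 : ℝ) * J ≤ (ca / 2 * J / L ^ (a + 1)) ^ 2 := by
      have e1 : (ca / 2 * J / L ^ (a + 1)) ^ 2 = ca ^ 2 / 4 * J ^ 2 / L ^ (2 * a + 2) := by
        rw [div_pow, mul_pow, div_pow, ← pow_mul]
        congr 1
        · norm_num
        · ring_nf
      rw [e1, le_div_iff₀ (by positivity)]
      calc 2 * J * L ^ (2 * a + 2) ≤ 2 * J * (ca ^ 2 / 64 * J) := by gcongr
        _ ≤ ca ^ 2 / 4 * J ^ 2 := by nlinarith [sq_nonneg (ca * J)]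
    exact abs_le_of_sq_le_sq' (h7.trans h8) (by positivity) |>.2
  have h7 : ca * J / L ^ (a + 1) = ca / 2 * J / L ^ (a + 1) + ca / 2 * J / L ^ (a + 1) := by ring
  linarith

theorem main (a b : ℕ) : ∃ c : ℝ, 0 < c ∧ ∀ᶠ X : ℕ in atTop,
    c * X / (Real.log (Real.log X) ^ a * Real.log (Real.log (Real.log X)) ^ 2) ≤
      ((hs a b X).card : ℝ) := by
  classical
  obtain ⟨cb, B, hcb, hB, N₁, hspr⟩ := spread b (b + 2)
  obtain ⟨ca, hca, hP⟩ := small_primes a
  obtain ⟨cw, hcw, J₀, hwin⟩ := win_bound a ca hca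
  have tN : Tendsto (fun N : ℕ => (N : ℝ)) atTop atTop := tendsto_natCast_atTop_atTop
  have tL : Tendsto (fun N : ℕ => Real.log (N : ℝ)) atTop atTop := Real.tendsto_log_atTop.comp tN
  have tLL : Tendsto (fun N : ℕ => Real.log (Real.log (N : ℝ))) atTop atTop :=
    Real.tendsto_log_atTop.comp tL
  have tLLL : Tendsto (fun N : ℕ => Real.log (Real.log (Real.log (N : ℝ)))) atTop atTop :=
    Real.tendsto_log_atTop.comp tLL
  have tJ : Tendsto (fun N : ℕ => ⌊Real.log (N : ℝ) ^ (b + 2)⌋₊) atTop atTop :=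
    tendsto_nat_floor_atTop.comp ((tendsto_pow_atTop (by omega)).comp tL)
  -- a power of the double logarithm
  have hll : ∀ᶠ N : ℕ in atTop, ((b + 2 : ℝ) * Real.log (Real.log (N : ℝ))) ^ 2 * (64 * B + 64) ≤
      cb * Real.log (N : ℝ) := by
    have h := (Real.isLittleO_pow_log_id_atTop (n := 2)).bound
      (show (0 : ℝ) < cb / ((b + 2 : ℝ) ^ 2 * (64 * B + 64)) by positivity)
    filter_upwards [tLL.eventually_ge_atTop 1, tL.eventually_ge_atTop 1, tL.eventually h] with N h1 h2 h3
    simp only [id, Real.norm_eq_abs] at h3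
    rw [abs_of_nonneg (by positivity), abs_of_nonneg (by linarith), div_mul_eq_mul_div,
      le_div_iff₀ (by positivity)] at h3
    calc _ = Real.log (Real.log (N : ℝ)) ^ 2 * ((b + 2 : ℝ) ^ 2 * (64 * B + 64)) := by ring
      _ ≤ _ := h3
  refine ⟨cb * cw / (64 * B * (b + 2) ^ a), by positivity, ?_⟩
  filter_upwards [eventually_ge_atTop N₁, eventually_ge_atTop 3, tJ.eventually_ge_atTop (max J₀ 8),
    tJ.eventually hP, tL.eventually_ge_atTop 4, tLL.eventually_ge_atTop (b + 2),
    tLLL.eventually_ge_atTop 1, hll, ev_pow_log (2 * b + 4) (min (cb / (16 * B)) 1) (by positivity),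
    tJ.eventually (ev_num 1)]
    with X g1 g2 g3 g4 g5 g6 g7 g8 g9 g10
  set L := Real.log (X : ℝ) with hL
  set J := ⌊L ^ (b + 2)⌋₊ with hJ
  set Λ := Real.log (J : ℝ) with hΛ
  have hL0 : 0 < L := by linarith
  have hL1 : 1 ≤ L := by linarith
  have hX0 : (0 : ℝ) < X := by exact_mod_cast (by omega : 0 < X)
  have hJle : (J : ℝ) ≤ L ^ (b + 2) := Nat.floor_le (by positivity)
  have hJge : L ^ (b + 2) / 2 ≤ J := by
    have h4 : L ^ (b + 2) - 1 < J := Nat.sub_one_lt_floor _
    have h5 : (4 : ℝ) ≤ L ^ (b + 2) := by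
      calc (4 : ℝ) ≤ L := g5
        _ = L ^ 1 := (pow_one L).symm
        _ ≤ L ^ (b + 2) := pow_le_pow_right₀ hL1 (by omega)
    linarith
  have hJ1 : L ^ (b + 1) ≤ J := by
    refine le_trans ?_ hJge
    have : L ^ (b + 2) = L ^ (b + 1) * L := by ring
    rw [this]
    have : 0 < L ^ (b + 1) := by positivity
    nlinarith
  have hJ8 : 8 ≤ J := (le_max_right _ _).trans g3
  have hJ0' : 0 < J := by omega
  have hJ0 : (0 : ℝ) < J := by exact_mod_cast hJ0'
  have hΛ1 : 1 ≤ Λ := g10.2.1
  have hΛ0 : 0 < Λ := by linarith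
  have hℓ1 : 1 ≤ Real.log Λ := g10.1
  have hΛle : Λ ≤ (b + 2 : ℝ) * Real.log L := by
    calc Λ ≤ Real.log (L ^ (b + 2)) := Real.log_le_log hJ0 hJle
      _ = _ := by rw [Real.log_pow]; push_cast; ring
  -- the conditions for X
  have hX9 : L ^ (2 * b + 4) ≤ cb / (16 * B) * X := g9.trans
    (mul_le_mul_of_nonneg_right (min_le_left _ _) hX0.le)
  have hX9' : L ^ (2 * b + 4) ≤ X := (g9.trans
    (mul_le_mul_of_nonneg_right (min_le_right _ _) hX0.le)).trans (le_of_eq (one_mul _))
  have hJX : (J : ℝ) ≤ X := by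
    refine hJle.trans (le_trans ?_ hX9')
    exact pow_le_pow_right₀ hL1 (by omega)
  have hJX' : J ≤ X := by exact_mod_cast hJX
  -- the spread set
  obtain ⟨Q, hQ1, hQ2, hQ3⟩ := hspr X g1 J hJ1 hJle
  have hap : ∀ b N q, q ∈ ap b N → 1 ≤ q ∧ q ≤ N ∧ IsP b q := by
    intro b N q hq
    unfold ap at hq
    rw [mem_filter, mem_Icc] at hq
    exact ⟨hq.1.1, hq.1.2, hq.2⟩
  set P := (ap a J).filter (fun p => 2 * J < p ^ 2) with hPdef
  have hPp : ∀ p ∈ P, p.Prime ∧ 2 * J < p ^ 2 ∧ p ≤ J := by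
    intro p hp
    rw [hPdef, mem_filter] at hp
    obtain ⟨h1, h2, h3⟩ := hap _ _ _ hp.1
    exact ⟨IsP_prime a p h3, hp.2, h2⟩
  -- the good intervals
  set G := (Icc 1 (X / J)).filter (fun i => Λ ^ 2 ≤ ((bl Q J i).card : ℝ)) with hG
  have hcover : (Q.card : ℝ) ≤ ∑ i ∈ range (X / J + 1), ((bl Q J i).card : ℝ) := by
    have h1 : Q ⊆ (range (X / J + 1)).biUnion (fun i => bl Q J i) := by
      intro q hq
      obtain ⟨h2, h3, _⟩ := hap _ _ _ (hQ1 hq)
      rw [mem_biUnion]
      refine ⟨(q - 1) / J, mem_range.2 ?_, mem_bl_self hJ0' hq h2⟩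
      have : (q - 1) / J ≤ X / J := Nat.div_le_div_right (by omega)
      omega
    have h2 := (card_le_card h1).trans card_biUnion_le
    exact_mod_cast h2
  have hXJ : ((X / J : ℕ) : ℝ) ≤ X / J := Nat.cast_div_le
  have hsplit : ∑ i ∈ range (X / J + 1), ((bl Q J i).card : ℝ) ≤
      (G.card : ℝ) * (B * J / L ^ (b + 1)) + ((X / J + 1) * Λ ^ 2 + B * J / L ^ (b + 1)) := by
    have h1 : ∀ i ∈ range (X / J + 1), ((bl Q J i).card : ℝ) ≤
        (if i ∈ G then B * J / L ^ (b + 1) else 0) + (Λ ^ 2 + if i = 0 then B * J / L ^ (b + 1) else 0) := by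
      intro i hi
      have hnn : 0 ≤ B * J / L ^ (b + 1) := by positivity
      by_cases h2 : i ∈ G
      · rw [if_pos h2]
        have := hQ3 i
        split_ifs <;> nlinarith [sq_nonneg Λ]
      · rw [if_neg h2]
        by_cases h3 : i = 0
        · rw [if_pos h3]
          have := hQ3 i
          nlinarith [sq_nonneg Λ]
        · rw [if_neg h3]
          have h4 : ¬ Λ ^ 2 ≤ ((bl Q J i).card : ℝ) := by
            intro h5
            apply h2
            rw [hG, mem_filter, mem_Icc]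
            have := mem_range.1 hi
            exact ⟨⟨by omega, by omega⟩, h5⟩
          linarith
    refine (sum_le_sum h1).trans ?_
    rw [sum_add_distrib, sum_add_distrib, sum_const, card_range, nsmul_eq_mul]
    have h2 : ∑ i ∈ range (X / J + 1), (if i ∈ G then B * J / L ^ (b + 1) else 0) ≤
        (G.card : ℝ) * (B * J / L ^ (b + 1)) := by
      rw [← sum_filter, sum_const, nsmul_eq_mul]
      apply mul_le_mul_of_nonneg_right _ (by positivity)
      rw [Nat.cast_le]
      apply card_le_card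
      intro i hi
      exact (mem_filter.1 hi).2
    have h3 : ∑ i ∈ range (X / J + 1), (if i = 0 then B * J / L ^ (b + 1) else 0) ≤
        B * J / L ^ (b + 1) := by
      rw [sum_ite_eq' (range (X / J + 1)) 0 (fun _ => B * J / L ^ (b + 1))]
      rw [if_pos (mem_range.2 (Nat.succ_pos _))]
    have h4 : ((X / J + 1 : ℕ) : ℝ) * Λ ^ 2 ≤ ((X : ℝ) / J + 1) * Λ ^ 2 := by
      apply mul_le_mul_of_nonneg_right _ (sq_nonneg _)
      push_cast
      linarith
    linarith
  have hlogpow : 0 < L ^ (b + 1) := by positivity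
  have e1 : ((X : ℝ) / J + 1) * Λ ^ 2 ≤ cb / 4 * X / L ^ (b + 1) := by
    have f1 : (X : ℝ) / J + 1 ≤ 4 * X / L ^ (b + 2) := by
      have h2 : (X : ℝ) / J ≤ 2 * X / L ^ (b + 2) := by
        rw [div_le_div_iff₀ hJ0 (by positivity)]
        nlinarith
      have h3 : (1 : ℝ) ≤ 2 * X / L ^ (b + 2) := by
        rw [le_div_iff₀ (by positivity)]
        have : L ^ (b + 2) ≤ L ^ (2 * b + 4) := pow_le_pow_right₀ hL1 (by omega)
        linarith
      have h4 : 4 * (X : ℝ) / L ^ (b + 2) = 2 * X / L ^ (b + 2) + 2 * X / L ^ (b + 2) := by ring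
      linarith
    have f2 : Λ ^ 2 ≤ cb * L / (64 * B + 64) := by
      rw [le_div_iff₀ (by positivity)]
      calc Λ ^ 2 * (64 * B + 64) ≤ ((b + 2 : ℝ) * Real.log L) ^ 2 * (64 * B + 64) := by gcongr
        _ ≤ _ := g8
    have f3 : cb * L / (64 * B + 64) ≤ cb * L / 16 := by
      apply div_le_div_of_nonneg_left (by positivity) (by norm_num)
      linarith
    calc ((X : ℝ) / J + 1) * Λ ^ 2 ≤ (4 * X / L ^ (b + 2)) * (cb * L / 16) := by
          apply mul_le_mul f1 (f2.trans f3) (sq_nonneg _) (by positivity)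
      _ = cb / 4 * X / L ^ (b + 1) := by
          field_simp
          ring
  have e2 : B * J / L ^ (b + 1) ≤ cb / 4 * X / L ^ (b + 1) := by
    apply div_le_div_of_nonneg_right _ hlogpow.le
    have : (J : ℝ) ≤ cb / (16 * B) * X := by
      refine hJle.trans (le_trans ?_ hX9)
      exact pow_le_pow_right₀ hL1 (by omega)
    calc B * J ≤ B * (cb / (16 * B) * X) := by gcongr
      _ = cb / 16 * X := by
        field_simp
      _ ≤ _ := by nlinarith [mul_pos hcb hX0]
  have hGc : cb / (2 * B) * (X / J) ≤ G.card := by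
    have h1 : cb / 2 * X / L ^ (b + 1) ≤ (G.card : ℝ) * (B * J / L ^ (b + 1)) := by
      have h2 : cb * X / L ^ (b + 1) = cb / 2 * X / L ^ (b + 1) + cb / 4 * X / L ^ (b + 1) +
        cb / 4 * X / L ^ (b + 1) := by ring
      linarith [hQ2.trans (hcover.trans hsplit)]
    have h2 : cb / 2 * X / L ^ (b + 1) = (cb / (2 * B) * (X / J)) * (B * J / L ^ (b + 1)) := by
      field_simp
    rw [h2] at h1
    exact le_of_mul_le_mul_right h1 (by positivity)
  -- one parity
  obtain ⟨ρ, hρ⟩ : ∃ ρ : ℕ, (G.card : ℝ) / 2 ≤ ((G.filter (fun i => i % 2 = ρ)).card : ℝ) := by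
    by_contra hcon
    push Not at hcon
    have h0 := hcon 0
    have h1 := hcon 1
    have h2 : G.card ≤ (G.filter (fun i => i % 2 = 0)).card + (G.filter (fun i => i % 2 = 1)).card := by
      rw [← card_union_of_disjoint (by
        rw [disjoint_left]
        intro i hi hi'
        rw [mem_filter] at hi hi'
        omega)]
      apply card_le_card
      intro i hi
      rw [mem_union]
      rcases Nat.mod_two_eq_zero_or_one i with h | h
      · exact Or.inl (mem_filter.2 ⟨hi, h⟩)
      · exact Or.inr (mem_filter.2 ⟨hi, h⟩)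
    have h3 : (G.card : ℝ) ≤ ((G.filter (fun i => i % 2 = 0)).card : ℝ) +
      ((G.filter (fun i => i % 2 = 1)).card : ℝ) := by exact_mod_cast h2
    linarith
  set G' := G.filter (fun i => i % 2 = ρ) with hG'
  set U := G'.biUnion (fun i => sums (bl Q J i) P) with hU
  have hblp : ∀ i, ∀ q ∈ bl Q J i, i * J < q ∧ q ≤ i * J + J := by
    intro i q hq
    unfold bl at hq
    rw [mem_filter, Nat.add_mul, one_mul] at hq
    exact hq.2
  have hUc : (U.card : ℝ) = ∑ i ∈ G', ((sums (bl Q J i) P).card : ℝ) := by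
    rw [hU, card_biUnion]
    · push_cast
      rfl
    · intro i hi i' hi' hne
      rw [Function.onFun, disjoint_left]
      intro n hn hn'
      obtain ⟨q, hq, p, hp, rfl⟩ := mem_sums.1 hn
      obtain ⟨q', hq', p', hp', he⟩ := mem_sums.1 hn'
      have h1 := hblp i q hq
      have h2 := hblp i' q' hq'
      have h3 := (hPp p hp).2.2
      have h4 := (hPp p' hp').2.2
      have h5 := (mem_filter.1 hi).2
      have h6 := (mem_filter.1 hi').2
      apply hne
      rcases lt_trichotomy i i' with h | h | h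
      · exfalso
        have h7 : i + 2 ≤ i' := by omega
        have h8 := Nat.mul_le_mul_right J h7
        have h9 : (i + 2) * J = i * J + 2 * J := by ring
        omega
      · exact h
      · exfalso
        have h7 : i' + 2 ≤ i := by omega
        have h8 := Nat.mul_le_mul_right J h7
        have h9 : (i' + 2) * J = i' * J + 2 * J := by ring
        omega
  have hlow : (G'.card : ℝ) * (cw * J / (Λ ^ a * Real.log Λ ^ 2)) ≤ U.card := by
    rw [hUc]
    calc (G'.card : ℝ) * (cw * J / (Λ ^ a * Real.log Λ ^ 2)) =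
        ∑ _i ∈ G', cw * J / (Λ ^ a * Real.log Λ ^ 2) := by rw [sum_const, nsmul_eq_mul]
      _ ≤ _ := by
        apply sum_le_sum
        intro i hi
        exact hwin J ((le_max_left _ _).trans g3) (i * J) (bl Q J i) P (hblp i) hPp g4
          (mem_filter.1 (mem_filter.1 hi).1).2
  -- the sums are twice the elements of `hs`
  have hUhs : U.card ≤ (hs a b X).card := by
    have hel : ∀ s ∈ U, ∃ p ∈ P, ∃ q ∈ Q, J < q ∧ s = q + p := by
      intro s hs
      obtain ⟨i, hi, hs⟩ := mem_biUnion.1 hs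
      obtain ⟨q, hq, p, hp, rfl⟩ := mem_sums.1 hs
      refine ⟨p, hp, q, ?_, ?_, rfl⟩
      · unfold bl at hq
        exact (mem_filter.1 hq).1
      · have h1 := (hblp i q hq).1
        have h2 := (mem_Icc.1 (mem_filter.1 (mem_filter.1 hi).1).1).1
        have h3 := Nat.mul_le_mul_right J h2
        omega
    have hodd : ∀ p ∈ P, p % 2 = 1 := by
      intro p hp
      obtain ⟨h1, h2, h3⟩ := hPp p hp
      rcases h1.eq_two_or_odd with h4 | h4
      · rw [h4] at h2
        omega
      · exact h4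
    have hoddq : ∀ q ∈ Q, J < q → q % 2 = 1 := by
      intro q hq hJq
      have h1 := IsP_prime b q (hap _ _ _ (hQ1 hq)).2.2
      rcases h1.eq_two_or_odd with h4 | h4
      · omega
      · exact h4
    apply card_le_card_of_injOn (fun s => s / 2)
    · intro s hs'
      obtain ⟨p, hp, q, hq, hJq, rfl⟩ := hel s (mem_coe.1 hs')
      have h4 := hodd p hp
      have h5 := hoddq q hq hJq
      obtain ⟨a1, a2, a3⟩ := hap _ _ _ (hQ1 hq)
      have h6 := (hPp p hp).2.2
      rw [mem_coe]
      unfold hs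
      rw [mem_filter, mem_Icc]
      refine ⟨⟨?_, ?_⟩, p, q, (hap _ _ _ (mem_filter.1 hp).1).2.2, a3, by omega, ?_, ?_⟩
      · show 1 ≤ (q + p) / 2
        omega
      · show (q + p) / 2 ≤ X
        omega
      · have h8 : (p : ℝ) ≤ J := by exact_mod_cast h6
        linarith
      · show p + q = 2 * ((q + p) / 2)
        omega
    · intro s hs1 t ht1 h
      obtain ⟨p, hp, q, hq, hJq, rfl⟩ := hel s (mem_coe.1 hs1)
      obtain ⟨p', hp', q', hq', hJq', rfl⟩ := hel t (mem_coe.1 ht1)
      have h4 := hodd p hp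
      have h5 := hoddq q hq hJq
      have h6 := hodd p' hp'
      have h7 := hoddq q' hq' hJq'
      simp only at h
      omega
  have hfin : (U.card : ℝ) ≤ (hs a b X).card := by exact_mod_cast hUhs
  refine le_trans ?_ hfin
  refine le_trans ?_ hlow
  have k1 : cb / (4 * B) * (X / J) ≤ G'.card := by
    have : cb / (4 * B) * ((X : ℝ) / J) = (cb / (2 * B) * (X / J)) / 2 := by
      field_simp
      ring
    rw [this]
    linarith
  have k2 : Real.log Λ ≤ 2 * Real.log (Real.log L) := by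
    have h1 : Λ ≤ Real.log L ^ 2 := by
      refine hΛle.trans ?_
      rw [pow_two]
      exact mul_le_mul_of_nonneg_right g6 (by linarith)
    have h2 := Real.log_le_log hΛ0 h1
    rw [Real.log_pow] at h2
    exact_mod_cast h2
  have hLL0 : 0 < Real.log L := by linarith
  have hLLL0 : 0 < Real.log (Real.log L) := by linarith
  have k3 : Λ ^ a * Real.log Λ ^ 2 ≤ ((b + 2 : ℝ) ^ a * 4) * (Real.log L ^ a * Real.log (Real.log L) ^ 2) := by
    calc Λ ^ a * Real.log Λ ^ 2 ≤ ((b + 2 : ℝ) * Real.log L) ^ a * (2 * Real.log (Real.log L)) ^ 2 := by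
          gcongr
      _ = _ := by
          rw [mul_pow, mul_pow]
          ring
  have k4 : 0 < Λ ^ a * Real.log Λ ^ 2 := by positivity
  calc cb * cw / (64 * B * (b + 2) ^ a) * X / (Real.log L ^ a * Real.log (Real.log L) ^ 2)
      = cb * cw * X / (16 * B) / (((b + 2 : ℝ) ^ a * 4) * (Real.log L ^ a * Real.log (Real.log L) ^ 2)) := by
        field_simp
        ring
    _ ≤ cb * cw * X / (16 * B) / (Λ ^ a * Real.log Λ ^ 2) := by
        apply div_le_div_of_nonneg_left (by positivity) k4 k3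
    _ ≤ cb * cw * X / (4 * B) / (Λ ^ a * Real.log Λ ^ 2) := by
        apply div_le_div_of_nonneg_right _ k4.le
        apply div_le_div_of_nonneg_left (by positivity) (by positivity)
        linarith
    _ = (cb / (4 * B) * (X / J)) * (cw * J / (Λ ^ a * Real.log Λ ^ 2)) := by
        field_simp
    _ ≤ _ := mul_le_mul_of_nonneg_right k1 (by positivity)

end Pool.Agent.T2q87.IP
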