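import Pool.Agent.TH882.U4

/-!
Iterated prime-indexed primes: for every `b` there are subsets of a positive proportion of the `b`-primes up to `N`
which have at most a constant times the average number of elements in all the intervals `(i J, (i + 1) J]`, for all
lengths `J` between `(log N) ^ (b + 1)` and a power of `log N`.
-/

set_option autoImplicit false
set_option maxHeartbeats 1000000

open Finset Filter Topology

namespace Pool.Agent.T2q87.IP

open Pool.Agent.TH882.IX

theorem ev_pow_log (k : ℕ) (c : ℝ) (hc : 0 < c) : ∀ᶠ N : ℕ in atTop, Real.log (N : ℝ) ^ k ≤ c * N := by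
  have tN : Tendsto (fun N : ℕ => (N : ℝ)) atTop atTop := tendsto_natCast_atTop_atTop
  have h := (Real.isLittleO_pow_log_id_atTop (n := k)).bound hc
  filter_upwards [tN.eventually h, eventually_ge_atTop 1] with N hN hN1
  have hN1' : (1 : ℝ) ≤ N := by exact_mod_cast hN1
  simp only [id, Real.norm_eq_abs] at hN
  rw [abs_of_nonneg (pow_nonneg (Real.log_nonneg hN1') _), abs_of_nonneg (by linarith)] at hN
  exact hN

theorem pw_mono {m m' J J' : ℕ} (h1 : m' ≤ m) (h2 : m + J ≤ m' + J') : pw m J ≤ pw m' J' := by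
  unfold pw
  apply card_le_card
  intro p hp
  rw [mem_filter, mem_Ioc] at hp ⊢
  exact ⟨⟨by omega, by omega⟩, hp.2⟩

theorem pw_le (m J : ℕ) : pw m J ≤ J := by
  unfold pw
  refine (card_filter_le _ _).trans ?_
  rw [Nat.card_Ioc]
  omega

/-- the second moment over disjoint intervals -/
theorem sq (C : ℕ) : ∃ D : ℝ, 0 < D ∧ ∃ N₀ : ℕ, ∀ N : ℕ, N₀ ≤ N → ∀ J : ℕ,
    Real.log N ≤ J → (J : ℝ) ≤ Real.log N ^ C →
    ∑ i ∈ range (N / J + 1), (pw (i * J) J : ℝ) ^ 2 ≤ D * N * J / Real.log N ^ 2 := by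
  obtain ⟨D1, hD1, N₁, h1⟩ := mom 0 (C + 1)
  obtain ⟨D2, hD2, N₂, h2⟩ := mom 1 (C + 1)
  have tN : Tendsto (fun N : ℕ => (N : ℝ)) atTop atTop := tendsto_natCast_atTop_atTop
  have tL : Tendsto (fun N : ℕ => Real.log (N : ℝ)) atTop atTop := Real.tendsto_log_atTop.comp tN
  obtain ⟨N₃, h3⟩ := eventually_atTop.1 ((ev_pow_log (C + 2) 1 one_pos).and
    (tL.eventually_ge_atTop 2))
  refine ⟨1 + 4 * D1 + 8 * D2, by positivity, max (max N₁ N₂) (max N₃ 1), fun N hN J hJ hJC => ?_⟩
  obtain ⟨g1, g2⟩ := h3 N ((le_max_left _ _).trans ((le_max_right _ _).trans hN))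
  have hN1 : 1 ≤ N := (le_max_right _ _).trans ((le_max_right _ _).trans hN)
  have hN0 : (0 : ℝ) < N := by exact_mod_cast hN1
  set L := Real.log (N : ℝ) with hL
  have hL0 : 0 < L := by linarith
  have hJ2 : (2 : ℝ) ≤ J := by linarith
  have hJ0 : (0 : ℝ) < J := by linarith
  have hJ0' : 0 < J := by exact_mod_cast hJ0
  have hJ2C : ((2 * J : ℕ) : ℝ) ≤ L ^ (C + 1) := by
    push_cast
    rw [pow_succ]
    nlinarith [pow_pos hL0 C]
  have hJL : L ≤ ((2 * J : ℕ) : ℝ) := by
    push_cast
    linarith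
  have a1 := h1 N ((le_max_left _ _).trans ((le_max_left _ _).trans hN)) (2 * J) hJL hJ2C
  have a2 := h2 N ((le_max_right _ _).trans ((le_max_left _ _).trans hN)) (2 * J) hJL hJ2C
  rw [zero_add, pow_one] at a1
  -- the squares
  have hsum : ∑ m ∈ Icc 1 N, (pw m (2 * J) : ℝ) ^ 2 ≤ (4 * D1 + 8 * D2) * N * (J ^ 2 / L ^ 2) := by
    have e1 : ∀ m ∈ Icc 1 N, (pw m (2 * J) : ℝ) ^ 2 =
        2 * ((pw m (2 * J)).choose 2 : ℝ) + ((pw m (2 * J)).choose 1 : ℝ) := by
      intro m _
      rw [Nat.cast_choose_two, Nat.choose_one_right]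
      ring
    rw [sum_congr rfl e1, sum_add_distrib, ← mul_sum]
    have b1 : ∑ m ∈ Icc 1 N, ((pw m (2 * J)).choose 1 : ℝ) ≤ D1 * N * (2 * J / L) := by
      have := a1
      push_cast at this
      exact this
    have b2 : ∑ m ∈ Icc 1 N, ((pw m (2 * J)).choose 2 : ℝ) ≤ D2 * N * (2 * J / L) ^ 2 := by
      have := a2
      push_cast at this
      exact this
    have b3 : 2 * (J : ℝ) / L ≤ 4 * (J ^ 2 / L ^ 2) := by
      rw [← mul_div_assoc, div_le_div_iff₀ hL0 (by positivity)]
      have : 0 ≤ (J : ℝ) * L * (4 * J - 2 * L) := by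
        apply mul_nonneg (by positivity)
        linarith
      nlinarith
    have b4 : (2 * (J : ℝ) / L) ^ 2 = 4 * (J ^ 2 / L ^ 2) := by
      rw [div_pow, mul_pow]
      ring
    rw [b4] at b2
    have b5 : D1 * N * (2 * J / L) ≤ D1 * N * (4 * (J ^ 2 / L ^ 2)) :=
      mul_le_mul_of_nonneg_left b3 (by positivity)
    calc _ ≤ 2 * (D2 * N * (4 * (J ^ 2 / L ^ 2))) + D1 * N * (4 * (J ^ 2 / L ^ 2)) := by linarith
      _ = _ := by ring
  -- the disjoint intervals
  have hind : ∀ n : ℕ, (J : ℝ) * ∑ i ∈ range n, (pw ((i + 1) * J) J : ℝ) ^ 2 ≤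
      ∑ m ∈ Ioc 0 (n * J), (pw m (2 * J) : ℝ) ^ 2 := by
    intro n
    induction n with
    | zero => simp
    | succ n ih =>
      rw [sum_range_succ, mul_add]
      have e1 : ∑ m ∈ Ioc 0 ((n + 1) * J), (pw m (2 * J) : ℝ) ^ 2 =
          ∑ m ∈ Ioc 0 (n * J), (pw m (2 * J) : ℝ) ^ 2 +
            ∑ m ∈ Ioc (n * J) ((n + 1) * J), (pw m (2 * J) : ℝ) ^ 2 :=
        (sum_Ioc_consecutive _ (Nat.zero_le _) (Nat.mul_le_mul_right J (Nat.le_succ n))).symm
      rw [e1]
      refine add_le_add ih ?_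
      have e2 : (J : ℝ) * (pw ((n + 1) * J) J : ℝ) ^ 2 =
          ∑ _m ∈ Ioc (n * J) ((n + 1) * J), (pw ((n + 1) * J) J : ℝ) ^ 2 := by
        rw [sum_const, Nat.card_Ioc, nsmul_eq_mul]
        congr 2
        rw [Nat.add_mul, one_mul, Nat.add_sub_cancel_left]
      rw [e2]
      apply sum_le_sum
      intro m hm
      rw [mem_Ioc] at hm
      apply pow_le_pow_left₀ (Nat.cast_nonneg _)
      rw [Nat.cast_le]
      apply pw_mono hm.2
      have : (n + 1) * J = n * J + J := by ring
      omega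
  have hle : ∑ m ∈ Ioc 0 (N / J * J), (pw m (2 * J) : ℝ) ^ 2 ≤ ∑ m ∈ Icc 1 N, (pw m (2 * J) : ℝ) ^ 2 := by
    apply sum_le_sum_of_subset_of_nonneg
    · intro m hm
      rw [mem_Ioc] at hm
      rw [mem_Icc]
      exact ⟨hm.1, hm.2.trans (Nat.div_mul_le_self N J)⟩
    · intro m _ _
      positivity
  rw [sum_range_succ']
  have c1 := (hind (N / J)).trans (hle.trans hsum)
  have c2 : ∑ i ∈ range (N / J), (pw ((i + 1) * J) J : ℝ) ^ 2 ≤
      (4 * D1 + 8 * D2) * N * (J / L ^ 2) := by
    have e1 : (4 * D1 + 8 * D2) * N * (J ^ 2 / L ^ 2) =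
        (J : ℝ) * ((4 * D1 + 8 * D2) * N * (J / L ^ 2)) := by ring
    rw [e1] at c1
    exact le_of_mul_le_mul_left c1 hJ0
  have c3 : (pw (0 * J) J : ℝ) ^ 2 ≤ N * (J / L ^ 2) := by
    have d1 : (pw (0 * J) J : ℝ) ≤ J := by exact_mod_cast pw_le _ _
    have d2 : (pw (0 * J) J : ℝ) ^ 2 ≤ (J : ℝ) ^ 2 := pow_le_pow_left₀ (Nat.cast_nonneg _) d1 2
    refine d2.trans ?_
    rw [← mul_div_assoc, le_div_iff₀ (by positivity)]
    have d3 : (J : ℝ) * L ^ 2 ≤ N := by
      calc (J : ℝ) * L ^ 2 ≤ L ^ C * L ^ 2 := by gcongr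
        _ = L ^ (C + 2) := by rw [← pow_add]
        _ ≤ 1 * N := g1
        _ = N := one_mul _
    nlinarith
  calc _ ≤ (4 * D1 + 8 * D2) * N * (J / L ^ 2) + N * (J / L ^ 2) := add_le_add c2 c3
    _ = _ := by ring

/-- the part of `Q` in the `i`-th interval -/
def bl (Q : Finset ℕ) (J i : ℕ) : Finset ℕ := Q.filter (fun q => i * J < q ∧ q ≤ (i + 1) * J)

theorem mem_bl_self {Q : Finset ℕ} {J q : ℕ} (hJ : 0 < J) (hq : q ∈ Q) (h1 : 1 ≤ q) :
    q ∈ bl Q J ((q - 1) / J) := by
  unfold bl
  rw [mem_filter]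
  have h2 := Nat.div_add_mod (q - 1) J
  have h3 := Nat.mod_lt (q - 1) hJ
  refine ⟨hq, ?_, ?_⟩
  · have h4 : (q - 1) / J * J ≤ q - 1 := Nat.div_mul_le_self _ _
    omega
  · rw [Nat.add_mul, one_mul, mul_comm]
    omega

theorem bl_unique {J q i : ℕ} (hJ : 0 < J) (h1 : i * J < q) (h2 : q ≤ (i + 1) * J) :
    (q - 1) / J = i := by
  rw [Nat.div_eq_iff hJ]
  rw [Nat.add_mul, one_mul] at h2
  constructor
  · omega
  · omega

/-- removing the intervals with too many primes -/
theorem prune {N J : ℕ} (hJ : 0 < J) (Q1 : Finset ℕ) (hQ1 : ∀ q ∈ Q1, 1 ≤ q ∧ q ≤ N) (β μ t S : ℝ)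
    (hβ : 0 ≤ β) (ht : 0 < t) (hμ : 0 ≤ μ)
    (hb : ∀ i, ((bl Q1 J i).card : ℝ) ≤ β * (pw (i * J) J + μ))
    (hS : ∑ i ∈ range (N / J + 1), (pw (i * J) J : ℝ) ^ 2 ≤ S) :
    ∃ Q ⊆ Q1, (Q1.card : ℝ) - β * (1 + μ / t) * (S / t) ≤ Q.card ∧
      ∀ i, ((bl Q J i).card : ℝ) ≤ β * (t + μ) := by
  classical
  set Q := Q1.filter (fun q => (pw ((q - 1) / J * J) J : ℝ) ≤ t) with hQ
  refine ⟨Q, filter_subset _ _, ?_, ?_⟩
  · have h1 : Q1 ⊆ Q ∪ ((range (N / J + 1)).filter (fun i => t < pw (i * J) J)).biUnion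
        (fun i => bl Q1 J i) := by
      intro q hq
      rw [mem_union]
      by_cases h : (pw ((q - 1) / J * J) J : ℝ) ≤ t
      · exact Or.inl (mem_filter.2 ⟨hq, h⟩)
      · right
        rw [mem_biUnion]
        refine ⟨(q - 1) / J, mem_filter.2 ⟨mem_range.2 ?_, not_le.1 h⟩, mem_bl_self hJ hq (hQ1 q hq).1⟩
        have h2 : (q - 1) / J ≤ N / J := Nat.div_le_div_right (by
          have := (hQ1 q hq).2
          omega)
        omega
    have h2 := (card_le_card h1).trans ((card_union_le _ _).trans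
      (Nat.add_le_add_left card_biUnion_le _))
    have h3 : (Q1.card : ℝ) ≤ Q.card + ∑ i ∈ (range (N / J + 1)).filter (fun i => t < pw (i * J) J),
        ((bl Q1 J i).card : ℝ) := by exact_mod_cast h2
    have h4 : ∑ i ∈ (range (N / J + 1)).filter (fun i => t < pw (i * J) J), ((bl Q1 J i).card : ℝ) ≤
        β * (1 + μ / t) * (S / t) := by
      calc _ ≤ ∑ i ∈ (range (N / J + 1)).filter (fun i => t < pw (i * J) J),
            β * (1 + μ / t) / t * (pw (i * J) J : ℝ) ^ 2 := by
            apply sum_le_sum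
            intro i hi
            have hi2 := (mem_filter.1 hi).2
            refine (hb i).trans ?_
            have e1 : β * (1 + μ / t) / t * (pw (i * J) J : ℝ) ^ 2 =
                β * ((pw (i * J) J : ℝ) * (pw (i * J) J / t) +
                  μ * ((pw (i * J) J / t) * (pw (i * J) J / t))) := by
              field_simp
            rw [e1]
            apply mul_le_mul_of_nonneg_left _ hβ
            have e2 : 1 ≤ (pw (i * J) J : ℝ) / t := by
              rw [le_div_iff₀ ht, one_mul]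
              exact hi2.le
            have e3 : (0 : ℝ) ≤ pw (i * J) J := Nat.cast_nonneg _
            have e4 : 1 ≤ ((pw (i * J) J : ℝ) / t) * (pw (i * J) J / t) := by nlinarith
            nlinarith
        _ ≤ ∑ i ∈ range (N / J + 1), β * (1 + μ / t) / t * (pw (i * J) J : ℝ) ^ 2 := by
            apply sum_le_sum_of_subset_of_nonneg (filter_subset _ _)
            intro i _ _
            positivity
        _ = β * (1 + μ / t) / t * ∑ i ∈ range (N / J + 1), (pw (i * J) J : ℝ) ^ 2 := by rw [mul_sum]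
        _ ≤ β * (1 + μ / t) / t * S := mul_le_mul_of_nonneg_left hS (by positivity)
        _ = _ := by ring
    linarith
  · intro i
    by_cases h : (pw (i * J) J : ℝ) ≤ t
    · have h1 : bl Q J i ⊆ bl Q1 J i := by
        unfold bl
        apply filter_subset_filter
        exact filter_subset _ _
      calc ((bl Q J i).card : ℝ) ≤ (bl Q1 J i).card := by exact_mod_cast card_le_card h1
        _ ≤ β * (pw (i * J) J + μ) := hb i
        _ ≤ _ := mul_le_mul_of_nonneg_left (by linarith) hβ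
    · have h1 : bl Q J i = ∅ := by
        rw [eq_empty_iff_forall_notMem]
        intro q hq
        unfold bl at hq
        rw [mem_filter] at hq
        have h2 := bl_unique hJ hq.2.1 hq.2.2
        have h3 := (mem_filter.1 hq.1).2
        rw [h2] at h3
        exact h h3
      rw [h1, card_empty, Nat.cast_zero]
      positivity

/-- the elements in an arbitrary interval -/
theorem any_interval {Q : Finset ℕ} {M : ℕ} (hM : 0 < M) {s : ℝ}
    (hb : ∀ i, ((bl Q M i).card : ℝ) ≤ s * M) (hs : 0 ≤ s) (x w : ℕ) :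
    ((Q.filter (fun r => x < r ∧ r ≤ x + w)).card : ℝ) ≤ s * (w + 2 * M) := by
  classical
  have h1 : Q.filter (fun r => x < r ∧ r ≤ x + w) ⊆ (Icc (x / M) ((x + w) / M)).biUnion
      (fun i => bl Q M i) := by
    intro r hr
    rw [mem_filter] at hr
    rw [mem_biUnion]
    refine ⟨(r - 1) / M, mem_Icc.2 ⟨Nat.div_le_div_right (by omega), Nat.div_le_div_right (by omega)⟩,
      mem_bl_self hM hr.1 (by omega)⟩
  have h2 := (card_le_card h1).trans card_biUnion_le
  have h3 : ((Q.filter (fun r => x < r ∧ r ≤ x + w)).card : ℝ) ≤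
      ∑ i ∈ Icc (x / M) ((x + w) / M), ((bl Q M i).card : ℝ) := by exact_mod_cast h2
  have h4 : ∑ i ∈ Icc (x / M) ((x + w) / M), ((bl Q M i).card : ℝ) ≤
      ((Icc (x / M) ((x + w) / M)).card : ℝ) * (s * M) := by
    refine (sum_le_sum fun i _ => hb i).trans (le_of_eq ?_)
    rw [sum_const, nsmul_eq_mul]
  have h5 : (Icc (x / M) ((x + w) / M)).card * M ≤ w + 2 * M := by
    rw [Nat.card_Icc]
    have e1 : (x + w) / M ≤ x / M + w / M + 1 := by
      have f1 := Nat.div_add_mod x M
      have f2 := Nat.div_add_mod w M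
      have f3 := Nat.mod_lt x hM
      have f4 := Nat.mod_lt w hM
      have f5 : x + w < M * (x / M + w / M + 2) := by
        have : M * (x / M + w / M + 2) = M * (x / M) + M * (w / M) + 2 * M := by ring
        omega
      have f6 := (Nat.div_lt_iff_lt_mul hM (x := x + w) (y := x / M + w / M + 2)).2 (by
        rw [mul_comm]
        exact f5)
      omega
    calc ((x + w) / M + 1 - x / M) * M ≤ (w / M + 2) * M := by
          apply Nat.mul_le_mul_right
          exact Nat.sub_le_iff_le_add.2 (by linarith)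
      _ = w / M * M + 2 * M := by ring
      _ ≤ w + 2 * M := Nat.add_le_add_right (Nat.div_mul_le_self _ _) _
  have h6 : ((Icc (x / M) ((x + w) / M)).card : ℝ) * M ≤ w + 2 * M := by exact_mod_cast h5
  calc _ ≤ _ := h3
    _ ≤ _ := h4
    _ = s * (((Icc (x / M) ((x + w) / M)).card : ℝ) * M) := by ring
    _ ≤ _ := mul_le_mul_of_nonneg_left h6 hs

/-- **the spread subsets of the iterated primes** -/
theorem spread (b : ℕ) : ∀ C : ℕ, ∃ c B : ℝ, 0 < c ∧ 0 < B ∧ ∃ N₀ : ℕ, ∀ N : ℕ, N₀ ≤ N → ∀ J : ℕ,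
    Real.log N ^ (b + 1) ≤ J → (J : ℝ) ≤ Real.log N ^ C →
    ∃ Q ⊆ ap b N, c * N / Real.log N ^ (b + 1) ≤ Q.card ∧
      ∀ i, ((bl Q J i).card : ℝ) ≤ B * J / Real.log N ^ (b + 1) := by
  classical
  have tN : Tendsto (fun N : ℕ => (N : ℝ)) atTop atTop := tendsto_natCast_atTop_atTop
  have tL : Tendsto (fun N : ℕ => Real.log (N : ℝ)) atTop atTop := Real.tendsto_log_atTop.comp tN
  have hap : ∀ b N q, q ∈ ap b N → 1 ≤ q ∧ q ≤ N ∧ IsP b q := by
    intro b N q hq
    unfold ap at hq
    rw [mem_filter, mem_Icc] at hq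
    exact ⟨hq.1.1, hq.1.2, hq.2⟩
  induction b with
  | zero =>
    intro C
    obtain ⟨c, hc, N₁, h1⟩ := ap_lower 0
    obtain ⟨D, hD, N₂, h2⟩ := sq C
    obtain ⟨N₃, h3⟩ := eventually_atTop.1 (tL.eventually_ge_atTop 1)
    set lam : ℝ := 2 * D / c with hlam
    have hlam0 : 0 < lam := by positivity
    refine ⟨c / 2, lam, by positivity, hlam0, max N₁ (max N₂ (max N₃ 1)), fun N hN J hJ hJC => ?_⟩
    have g1 := h1 N ((le_max_left _ _).trans hN)
    have g3 := h3 N ((le_max_left _ _).trans ((le_max_right _ _).trans ((le_max_right _ _).trans hN)))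
    have hN1 : 1 ≤ N := (le_max_right _ _).trans ((le_max_right _ _).trans ((le_max_right _ _).trans hN))
    rw [zero_add, pow_one] at hJ g1 ⊢
    have g2 := h2 N ((le_max_left _ _).trans ((le_max_right _ _).trans hN)) J hJ hJC
    have hN0 : (0 : ℝ) < N := by exact_mod_cast hN1
    set L := Real.log (N : ℝ) with hL
    have hL0 : 0 < L := by linarith
    have hJ0 : (0 : ℝ) < J := by linarith
    have hJ0' : 0 < J := by exact_mod_cast hJ0
    obtain ⟨Q, hQ1, hQ2, hQ3⟩ := prune hJ0' (ap 0 N) (fun q hq => ⟨(hap _ _ _ hq).1, (hap _ _ _ hq).2.1⟩)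
      1 0 (lam * J / L) (D * N * J / L ^ 2) zero_le_one (by positivity) le_rfl (by
        intro i
        rw [one_mul, add_zero, Nat.cast_le]
        unfold pw bl
        apply card_le_card
        intro q hq
        rw [mem_filter] at hq
        rw [mem_filter, mem_Ioc]
        refine ⟨⟨hq.2.1, ?_⟩, (hap _ _ _ hq.1).2.2⟩
        have := hq.2.2
        rw [Nat.add_mul, one_mul] at this
        exact this) g2
    refine ⟨Q, hQ1, ?_, ?_⟩
    · refine le_trans ?_ hQ2
      have e1 : 1 * (1 + 0 / (lam * J / L)) * (D * N * J / L ^ 2 / (lam * J / L)) = c / 2 * N / L := by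
        rw [hlam]
        field_simp
        ring
      rw [e1]
      have e2 : c * N / L = c / 2 * N / L + c / 2 * N / L := by ring
      linarith
    · intro i
      refine (hQ3 i).trans (le_of_eq ?_)
      ring
  | succ b ih =>
    intro C
    obtain ⟨c', B', hc', hB', N₁, h1⟩ := ih (2 * C)
    obtain ⟨D, hD, N₂, h2⟩ := sq C
    have tP : ∀ᶠ N : ℕ in atTop, N₁ ≤ Nat.primeCounting N :=
      Nat.tendsto_primeCounting.eventually_ge_atTop N₁
    obtain ⟨N₃, h3⟩ := eventually_atTop.1 (pnt_ev.and (tP.and (tL.eventually_ge_atTop 4)))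
    set Bq : ℝ := 2 ^ (b + 1) * B' with hBq
    have hBq0 : 0 < Bq := by positivity
    set lam : ℝ := 20 * Bq * D / c' + 1 with hlam
    have hlam1 : 1 ≤ lam := by
      have : 0 < 20 * Bq * D / c' := by positivity
      linarith
    have hlam0 : 0 < lam := by linarith
    refine ⟨c' / 4, Bq * (lam + 4), by positivity, by positivity, max N₂ (max N₃ 1),
      fun N hN J hJ hJC => ?_⟩
    obtain ⟨⟨p1, p2, p3, p4⟩, p5, p6⟩ := h3 N ((le_max_left _ _).trans ((le_max_right _ _).trans hN))
    have hN1 : 1 ≤ N := (le_max_right _ _).trans ((le_max_right _ _).trans hN)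
    have hN0 : (0 : ℝ) < N := by exact_mod_cast hN1
    set L := Real.log (N : ℝ) with hL
    set N' := Nat.primeCounting N with hN'
    set L' := Real.log (N' : ℝ) with hL'
    have hL0 : 0 < L := by linarith
    have hL1 : 1 ≤ L := by linarith
    have hL'2 : 2 ≤ L' := by linarith
    have hL'0 : 0 < L' := by linarith
    have hN'0 : (0 : ℝ) < N' := by
      refine lt_of_lt_of_le ?_ p1
      positivity
    have hL'L : L' ≤ L := Real.log_le_log hN'0 p4
    have hLL' : L ≤ L' ^ 2 := by nlinarith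
    have hLL2 : L ≤ 2 * L' := by linarith
    have hJL : L ≤ J := by
      refine le_trans ?_ hJ
      calc L = L ^ 1 := (pow_one L).symm
        _ ≤ L ^ (b + 1 + 1) := pow_le_pow_right₀ hL1 (by omega)
    have hJ0 : (0 : ℝ) < J := by linarith
    have hJ0' : 0 < J := by exact_mod_cast hJ0
    have g2 := h2 N ((le_max_left _ _).trans hN) J hJL hJC
    -- the index scale
    set M := ⌈(J : ℝ) / L⌉₊ with hM
    have hM1 : (J : ℝ) / L ≤ M := Nat.le_ceil _
    have hJL1 : 1 ≤ (J : ℝ) / L := by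
      rw [le_div_iff₀ hL0, one_mul]
      exact hJL
    have hM2 : (M : ℝ) ≤ 2 * (J / L) := by
      have := Nat.ceil_lt_add_one (show (0 : ℝ) ≤ J / L by positivity)
      linarith
    have hM0 : 0 < M := by
      have : (0 : ℝ) < M := by linarith
      exact_mod_cast this
    have q2 : L' ^ (b + 1) ≤ M := by
      refine le_trans ?_ hM1
      rw [le_div_iff₀ hL0]
      calc L' ^ (b + 1) * L ≤ L ^ (b + 1) * L := by gcongr
        _ = L ^ (b + 1 + 1) := by ring
        _ ≤ J := hJ
    have q3 : (M : ℝ) ≤ L' ^ (2 * C) := by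
      calc (M : ℝ) ≤ 2 * (J / L) := hM2
        _ ≤ 2 * (J / 2) := by
          gcongr
          linarith
        _ = J := by ring
        _ ≤ L ^ C := hJC
        _ ≤ (L' ^ 2) ^ C := by gcongr
        _ = L' ^ (2 * C) := by rw [← pow_mul]
    obtain ⟨Q', hQ'1, hQ'2, hQ'3⟩ := h1 N' p5 M q2 q3
    -- the primes with these indices
    set nt : ℕ → ℕ := fun r => Nat.nth Nat.Prime (r - 1) with hnt
    have hnt1 : ∀ r, 1 ≤ r → Nat.primeCounting (nt r) = r := by
      intro r hr
      rw [hnt]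
      dsimp only
      rw [pi_nth]
      omega
    set Q1 := Q'.image nt with hQ1
    have hQ1c : Q1.card = Q'.card := by
      rw [hQ1]
      apply card_image_of_injOn
      intro r hr r' hr' he
      have a1 := (hap _ _ _ (hQ'1 hr)).1
      have a2 := (hap _ _ _ (hQ'1 hr')).1
      have a3 := congrArg Nat.primeCounting he
      rw [hnt1 r a1, hnt1 r' a2] at a3
      exact a3
    have hQ1ap : Q1 ⊆ ap (b + 1) N := by
      intro q hq
      obtain ⟨r, hr, rfl⟩ := mem_image.1 hq
      obtain ⟨a1, a2, a3⟩ := hap _ _ _ (hQ'1 hr)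
      have e2 : (nt r).Prime := Nat.prime_nth_prime (r - 1)
      unfold ap
      rw [mem_filter, mem_Icc]
      refine ⟨⟨e2.one_lt.le, ?_⟩, e2, ?_⟩
      · by_contra hcon
        push Not at hcon
        have := pi_lt hcon e2
        rw [hnt1 r a1] at this
        omega
      · rw [hnt1 r a1]
        exact a3
    have hβ0 : (0 : ℝ) ≤ Bq / L ^ (b + 1) := by positivity
    have hbl : ∀ i, ((bl Q1 J i).card : ℝ) ≤ Bq / L ^ (b + 1) * (pw (i * J) J + 2 * M) := by
      intro i
      have a1 : (bl Q1 J i).card ≤ (Q'.filter (fun r => Nat.primeCounting (i * J) < r ∧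
          r ≤ Nat.primeCounting (i * J) + pw (i * J) J)).card := by
        apply card_le_card_of_injOn Nat.primeCounting
        · intro q hq
          have hq' := mem_coe.1 hq
          unfold bl at hq'
          rw [mem_filter] at hq'
          obtain ⟨r, hr, rfl⟩ := mem_image.1 hq'.1
          have b1 := (hap _ _ _ (hQ'1 hr)).1
          have e2 : (nt r).Prime := Nat.prime_nth_prime (r - 1)
          rw [mem_coe, mem_filter]
          refine ⟨by rw [hnt1 r b1]; exact hr, pi_lt hq'.2.1 e2, ?_⟩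
          rw [← pi_add]
          apply Nat.monotone_primeCounting
          have := hq'.2.2
          rw [Nat.add_mul, one_mul] at this
          exact this
        · intro q hq q' hq' he
          have hq1 := (mem_filter.1 (mem_coe.1 hq)).1
          have hq2 := (mem_filter.1 (mem_coe.1 hq')).1
          obtain ⟨r, hr, rfl⟩ := mem_image.1 hq1
          obtain ⟨r', hr', rfl⟩ := mem_image.1 hq2
          exact pi_inj (Nat.prime_nth_prime _) (Nat.prime_nth_prime _) he
      have a2 := any_interval hM0 (Q := Q') (s := B' / L' ^ (b + 1)) (by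
        intro i
        refine (hQ'3 i).trans (le_of_eq ?_)
        ring) (by positivity) (Nat.primeCounting (i * J)) (pw (i * J) J)
      have a3 : B' / L' ^ (b + 1) ≤ Bq / L ^ (b + 1) := by
        rw [hBq, div_le_div_iff₀ (by positivity) (by positivity)]
        have : L ^ (b + 1) ≤ (2 * L') ^ (b + 1) := by gcongr
        rw [mul_pow] at this
        calc B' * L ^ (b + 1) ≤ B' * (2 ^ (b + 1) * L' ^ (b + 1)) := by gcongr
          _ = _ := by ring
      calc ((bl Q1 J i).card : ℝ) ≤ _ := by exact_mod_cast a1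
        _ ≤ _ := a2
        _ ≤ _ := mul_le_mul_of_nonneg_right a3 (by positivity)
    obtain ⟨Q, hQa, hQb, hQc⟩ := prune hJ0' Q1 (fun q hq => ⟨(hap _ _ _ (hQ1ap hq)).1,
      (hap _ _ _ (hQ1ap hq)).2.1⟩) (Bq / L ^ (b + 1)) (2 * M) (lam * J / L) (D * N * J / L ^ 2) hβ0
      (by positivity) (by positivity) hbl g2
    refine ⟨Q, hQa.trans hQ1ap, ?_, ?_⟩
    · refine le_trans ?_ hQb
      rw [hQ1c]
      have e1 : c' / 2 * N / L ^ (b + 1 + 1) ≤ (Q'.card : ℝ) := by
        refine le_trans ?_ hQ'2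
        rw [div_le_div_iff₀ (by positivity) (by positivity)]
        have e2 : L' ^ (b + 1) ≤ L ^ (b + 1) := by gcongr
        have e3 : (N : ℝ) ≤ 2 * L * N' := by
          have := p1
          rw [div_le_iff₀ (by positivity)] at this
          linarith
        calc c' / 2 * N * L' ^ (b + 1) ≤ c' / 2 * (2 * L * N') * L ^ (b + 1) := by gcongr
          _ = c' * N' * L ^ (b + 1 + 1) := by ring
      have e4 : Bq / L ^ (b + 1) * (1 + 2 * M / (lam * J / L)) * (D * N * J / L ^ 2 / (lam * J / L)) ≤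
          c' / 4 * N / L ^ (b + 1 + 1) := by
        have f1 : 2 * (M : ℝ) / (lam * J / L) ≤ 4 := by
          rw [div_le_iff₀ (by positivity)]
          have : 4 * (J / L) ≤ 4 * (lam * J / L) := by
            have : (J : ℝ) / L ≤ lam * J / L := by
              rw [mul_div_assoc]
              have : 0 ≤ (J : ℝ) / L := by positivity
              nlinarith
            linarith
          linarith
        have f2 : D * N * J / L ^ 2 / (lam * J / L) = D * N / (lam * L) := by
          field_simp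
        rw [f2]
        calc Bq / L ^ (b + 1) * (1 + 2 * M / (lam * J / L)) * (D * N / (lam * L)) ≤
            Bq / L ^ (b + 1) * (1 + 4) * (D * N / (lam * L)) := by gcongr
          _ = (5 * Bq * D / lam) * (N / L ^ (b + 1 + 1)) := by
            field_simp
            ring
          _ ≤ (c' / 4) * (N / L ^ (b + 1 + 1)) := by
            apply mul_le_mul_of_nonneg_right _ (by positivity)
            rw [div_le_iff₀ hlam0, hlam]
            have : c' / 4 * (20 * Bq * D / c' + 1) = 5 * Bq * D + c' / 4 := by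
              field_simp
              ring
            rw [this]
            linarith
          _ = _ := by ring
      have e5 : c' / 2 * N / L ^ (b + 1 + 1) = c' / 4 * N / L ^ (b + 1 + 1) +
        c' / 4 * N / L ^ (b + 1 + 1) := by ring
      linarith
    · intro i
      refine (hQc i).trans ?_
      calc Bq / L ^ (b + 1) * (lam * J / L + 2 * M) ≤
          Bq / L ^ (b + 1) * (lam * J / L + 2 * (2 * (J / L))) := by gcongr
        _ = _ := by
          field_simp
          ring

end Pool.Agent.T2q87.IP
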