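import Pool.Agent.N136.OW.SV
import Pool.Agent.N75.OW.SG

/-!
Sums of a set of integers in a window and of a set of primes: a lower bound by means of a high moment of the number
of the representations and the upper bound sieve, uniformly in its dimension.
-/

set_option autoImplicit false
set_option maxHeartbeats 1000000

open Finset Filter Topology

namespace Pool.Agent.T2q87.IP

/-- collisions -/
theorem image_defect {α β : Type} [DecidableEq α] [DecidableEq β] [LinearOrder α] (T : Finset α) (f : α → β) :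
    T.card ≤ (T.image f).card +
      ((T ×ˢ T).filter (fun x => x.1 < x.2 ∧ f x.1 = f x.2)).card := by
  classical
  induction T using Finset.induction_on_max with
  | empty => simp
  | insert a T ha ih =>
    have haT : a ∉ T := fun h => lt_irrefl _ (ha a h)
    rw [card_insert_of_notMem haT, image_insert]
    by_cases h : f a ∈ T.image f
    · rw [insert_eq_of_mem h]
      obtain ⟨b, hb, hab⟩ := mem_image.1 h
      have h1 : insert (b, a) ((T ×ˢ T).filter (fun x => x.1 < x.2 ∧ f x.1 = f x.2)) ⊆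
          ((insert a T ×ˢ insert a T).filter (fun x => x.1 < x.2 ∧ f x.1 = f x.2)) := by
        intro x hx
        rw [mem_insert, mem_filter, mem_product] at hx
        rw [mem_filter, mem_product, mem_insert, mem_insert]
        rcases hx with rfl | hx
        · exact ⟨⟨Or.inr hb, Or.inl rfl⟩, ha b hb, hab⟩
        · exact ⟨⟨Or.inr hx.1.1, Or.inr hx.1.2⟩, hx.2⟩
      have h2 := card_le_card h1
      rw [card_insert_of_notMem (by
        rw [mem_filter, mem_product]
        exact fun h => haT h.1.2)] at h2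
      omega
    · rw [card_insert_of_notMem h]
      have h1 : ((T ×ˢ T).filter (fun x => x.1 < x.2 ∧ f x.1 = f x.2)) ⊆
          ((insert a T ×ˢ insert a T).filter (fun x => x.1 < x.2 ∧ f x.1 = f x.2)) := by
        apply filter_subset_filter
        exact product_subset_product (subset_insert _ _) (subset_insert _ _)
      have h2 := card_le_card h1
      omega

/-- few large prime divisors -/
theorem few_div {h : ℕ} (hh : 0 < h) (S : Finset ℕ) (hS : ∀ l ∈ S, l.Prime ∧ l ∣ h) :
    (S.card : ℝ) * Real.log 2 ≤ Real.log h := by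
  have h1 : ∏ l ∈ S, l ∣ h := prod_primes_dvd h (fun l hl => (hS l hl).1.prime) fun l hl => (hS l hl).2
  have h2 : 2 ^ S.card ≤ ∏ l ∈ S, l := by
    rw [← prod_const]
    exact prod_le_prod' fun l hl => (hS l hl).1.two_le
  have h3 : 2 ^ S.card ≤ h := h2.trans (Nat.le_of_dvd hh h1)
  have h4 : Real.log ((2 : ℝ) ^ S.card) ≤ Real.log h := by
    apply Real.log_le_log (by positivity)
    exact_mod_cast h3
  rwa [Real.log_pow] at h4

/-- the numerical conditions -/
theorem ev_num (C : ℝ) : ∀ᶠ J : ℕ in atTop, 1 ≤ Real.log (Real.log (J : ℝ)) ∧ 1 ≤ Real.log (J : ℝ) ∧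
    C * (12 * Real.log (Real.log (J : ℝ)) ^ 2) ≤ Real.log (J : ℝ) := by
  have tN : Tendsto (fun N : ℕ => (N : ℝ)) atTop atTop := tendsto_natCast_atTop_atTop
  have tL : Tendsto (fun N : ℕ => Real.log (N : ℝ)) atTop atTop := Real.tendsto_log_atTop.comp tN
  have tLL : Tendsto (fun N : ℕ => Real.log (Real.log (N : ℝ))) atTop atTop :=
    Real.tendsto_log_atTop.comp tL
  have h := (Real.isLittleO_pow_log_id_atTop (n := 2)).bound
    (show (0 : ℝ) < 1 / (12 * (|C| + 1)) by positivity)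
  filter_upwards [tLL.eventually_ge_atTop 1, tL.eventually_ge_atTop 1, tL.eventually h] with J h1 h2 h3
  refine ⟨h1, h2, ?_⟩
  simp only [id, Real.norm_eq_abs] at h3
  rw [abs_of_nonneg (show 0 ≤ Real.log (Real.log (J : ℝ)) ^ 2 by positivity),
    abs_of_nonneg (show 0 ≤ Real.log (J : ℝ) by linarith), div_mul_eq_mul_div, one_mul,
    le_div_iff₀ (by positivity)] at h3
  have h4 : C ≤ |C| + 1 := by
    have := le_abs_self C
    linarith
  have h5 : 0 ≤ Real.log (Real.log (J : ℝ)) ^ 2 := by positivity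
  nlinarith

open Classical in
/-- **the sieve bound in a window** -/
theorem win_sieve : ∃ D : ℝ, 1 ≤ D ∧ ∃ J₀ : ℕ, ∀ J : ℕ, J₀ ≤ J → ∀ k : ℕ, 2 ≤ k →
    (k : ℝ) ≤ 4 * Real.log (Real.log J) → ∀ x : ℕ, ∀ T P : Finset ℕ, T.card = k →
    (∀ q ∈ T, x < q ∧ q ≤ x + J) → (∀ p ∈ P, p.Prime ∧ 2 * J < p ^ 2 ∧ p ≤ J) → ∀ S : Finset ℕ,
    (∀ n ∈ S, ∀ q ∈ T, ∃ p ∈ P, n = q + p) →
    (S.card : ℝ) ≤ 6 * J * (D * k * Real.log (Real.log J) / Real.log J) ^ k := by
  obtain ⟨C0, hC0, h⟩ := Pool.Agent.N136.OW.sv2 Pool.Agent.N75.OW.sg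
  set C : ℝ := max C0 2 with hC
  have hC2 : 2 ≤ C := le_max_right _ _
  obtain ⟨D, hD, h⟩ := h C (le_max_left _ _)
  obtain ⟨J₁, hJ₁⟩ := eventually_atTop.1 ((ev_num C).and (ev_num 4))
  refine ⟨3 * D, by linarith, max J₁ 3, fun J hJ k hk hkl x T P hTk hT hP S hS => ?_⟩
  obtain ⟨⟨g1, g2, g3⟩, -, -, g4⟩ := hJ₁ J ((le_max_left _ _).trans hJ)
  have hJ3 : 3 ≤ J := (le_max_right _ _).trans hJ
  set L := Real.log (J : ℝ) with hL
  set ℓ := Real.log L with hℓ
  have hL0 : 0 < L := by linarith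
  have hℓ0 : 0 < ℓ := by linarith
  have hJ0 : (0 : ℝ) < J := by exact_mod_cast (by omega : 0 < J)
  have hk0 : (0 : ℝ) < k := by exact_mod_cast (by omega : 0 < k)
  set y := ⌈L ^ 2⌉₊ with hy
  have hy1 : L ^ 2 ≤ y := Nat.le_ceil _
  have hy2 : (y : ℝ) ≤ L ^ 2 + 1 := (Nat.ceil_lt_add_one (by positivity)).le
  have hk2 : (k : ℝ) ^ 2 ≤ 16 * ℓ ^ 2 := by nlinarith
  have hL4 : 48 ≤ L := by nlinarith
  have hk2L : (k : ℝ) ^ 2 ≤ L / 3 := by nlinarith
  have hlog2J : L ≤ Real.log ((2 * J : ℕ) : ℝ) := by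
    rw [hL]
    apply Real.log_le_log hJ0
    push_cast
    linarith
  have hlogy : Real.log y ≤ 3 * ℓ := by
    have h1 : (y : ℝ) ≤ L ^ 3 := by nlinarith
    have h2 : Real.log y ≤ Real.log (L ^ 3) := by
      apply Real.log_le_log _ h1
      nlinarith
    rw [Real.log_pow] at h2
    exact_mod_cast h2
  have hlogy0 : 0 ≤ Real.log y := Real.log_nonneg (by nlinarith)
  -- the set
  set A := (S.image (fun n => n - x)) with hA
  have hSx : ∀ n ∈ S, x < n ∧ n ≤ x + 2 * J := by
    intro n hn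
    have hTne : T.Nonempty := by
      rw [← card_pos, hTk]
      omega
    obtain ⟨q, hq⟩ := hTne
    obtain ⟨p, hp, rfl⟩ := hS n hn q hq
    have h1 := hT q hq
    have h2 := (hP p hp).2.2
    omega
  have hAc : A.card = S.card := by
    rw [hA]
    apply card_image_of_injOn
    intro n hn n' hn' he
    have h1 := hSx n hn
    have h2 := hSx n' hn'
    simp only at he
    omega
  set I : ℕ → Finset ℕ := fun l => T.image (fun q => (q - x) % l) with hI
  have hmain := h k (2 * J) y 1 I A (by omega) (by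
    have : (2 : ℝ) ≤ y := by nlinarith
    exact_mod_cast this) (by
    have : (k : ℝ) ^ 2 ≤ y := by nlinarith
    exact_mod_cast this) (by
    calc C * k * Real.log y ≤ C * (4 * ℓ) * (3 * ℓ) := by gcongr
      _ = C * (12 * ℓ ^ 2) := by ring
      _ ≤ L := g3
      _ ≤ _ := hlog2J) (by
    intro m hm
    obtain ⟨n, hn, rfl⟩ := mem_image.1 hm
    have h1 := hSx n hn
    rw [mem_Icc]
    omega) (by
    intro l hl _
    refine ⟨?_, ?_⟩
    · intro m hm
      obtain ⟨q, _, rfl⟩ := mem_image.1 hm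
      exact mem_range.2 (Nat.mod_lt _ hl.pos)
    · rw [← hTk]
      exact card_image_le) (by
    intro m hm l hl hyl hlN hmI
    obtain ⟨n, hn, rfl⟩ := mem_image.1 hm
    obtain ⟨q, hq, he⟩ := mem_image.1 hmI
    obtain ⟨p, hp, hnp⟩ := hS n hn q hq
    obtain ⟨p1, p2, p3⟩ := hP p hp
    have h1 := hT q hq
    have h2 : n - x = (q - x) + p := by omega
    rw [h2] at he
    have h3 : l ∣ p := by
      have h4 : (q - x) ≡ (q - x) + p [MOD l] := he
      have h5 := (Nat.modEq_iff_dvd' (Nat.le_add_right _ _)).1 h4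
      rwa [Nat.add_sub_cancel_left] at h5
    have h4 : l = p := (Nat.prime_dvd_prime_iff_eq hl p1).1 h3
    rw [h4] at hlN
    have h5 : Real.log p * 4 ≤ Real.log ((2 * J : ℕ) : ℝ) := by
      refine le_trans ?_ hlN
      have h6 : 0 ≤ Real.log p := Real.log_nonneg (by exact_mod_cast p1.one_lt.le)
      have h7 : (4 : ℝ) ≤ C * k := by
        have : (2 : ℝ) ≤ k := by exact_mod_cast hk
        nlinarith
      nlinarith
    have h6 : Real.log ((2 * J : ℕ) : ℝ) < Real.log ((p : ℝ) ^ 2) := by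
      apply Real.log_lt_log
      · exact_mod_cast (by omega : 0 < 2 * J)
      · exact_mod_cast p2
    rw [Real.log_pow] at h6
    have h7 : 0 ≤ Real.log p := Real.log_nonneg (by exact_mod_cast p1.one_lt.le)
    push_cast at h6 h5
    linarith) (by
    -- the defect
    have hdef : ∀ l ∈ (Ioc y (2 * J)).filter Nat.Prime, ((k : ℝ) - (I l).card) / l ≤
        ∑ z ∈ (T ×ˢ T).filter (fun z => z.1 < z.2), (if l ∣ z.2 - z.1 then (1 : ℝ) / y else 0) := by
      intro l hl
      rw [mem_filter, mem_Ioc] at hl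
      have h1 := image_defect T (fun q => (q - x) % l)
      rw [hTk] at h1
      have h2 : ((T ×ˢ T).filter (fun z => z.1 < z.2 ∧ (z.1 - x) % l = (z.2 - x) % l)).card ≤
          (((T ×ˢ T).filter (fun z => z.1 < z.2)).filter (fun z => l ∣ z.2 - z.1)).card := by
        apply card_le_card
        intro z hz
        rw [mem_filter, mem_product] at hz
        rw [mem_filter, mem_filter, mem_product]
        refine ⟨⟨hz.1, hz.2.1⟩, ?_⟩
        have a1 := hT z.1 hz.1.1
        have a2 := hT z.2 hz.1.2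
        have h4 : (z.1 - x) ≡ (z.2 - x) [MOD l] := hz.2.2
        have h5 := (Nat.modEq_iff_dvd' (by omega)).1 h4
        have h6 : z.2 - x - (z.1 - x) = z.2 - z.1 := by omega
        rwa [h6] at h5
      have h3 : (k : ℝ) - (I l).card ≤
          ((((T ×ˢ T).filter (fun z => z.1 < z.2)).filter (fun z => l ∣ z.2 - z.1)).card : ℝ) := by
        have : k ≤ (I l).card +
            (((T ×ˢ T).filter (fun z => z.1 < z.2)).filter (fun z => l ∣ z.2 - z.1)).card := by
          refine h1.trans ?_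
          exact Nat.add_le_add_left h2 _
        have h4 : (k : ℝ) ≤ (I l).card +
            (((T ×ˢ T).filter (fun z => z.1 < z.2)).filter (fun z => l ∣ z.2 - z.1)).card := by
          exact_mod_cast this
        linarith
      rw [← sum_filter, sum_const, nsmul_eq_mul, mul_one_div]
      have hy0 : (0 : ℝ) < y := by nlinarith
      have hyl : (y : ℝ) ≤ l := by exact_mod_cast hl.1.1.le
      have hl0 : (0 : ℝ) < l := by linarith
      calc ((k : ℝ) - (I l).card) / l ≤
          ((((T ×ˢ T).filter (fun z => z.1 < z.2)).filter (fun z => l ∣ z.2 - z.1)).card : ℝ) / l := by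
            gcongr
        _ ≤ _ := by gcongr
    refine (sum_le_sum hdef).trans ?_
    rw [sum_comm]
    have hy0 : (0 : ℝ) < y := by nlinarith
    have hz : ∀ z ∈ (T ×ˢ T).filter (fun z => z.1 < z.2),
        ∑ l ∈ (Ioc y (2 * J)).filter Nat.Prime, (if l ∣ z.2 - z.1 then (1 : ℝ) / y else 0) ≤
          3 * L / y := by
      intro z hz
      rw [mem_filter, mem_product] at hz
      have a1 := hT z.1 hz.1.1
      have a2 := hT z.2 hz.1.2
      rw [← sum_filter, sum_const, nsmul_eq_mul, mul_one_div]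
      apply div_le_div_of_nonneg_right _ hy0.le
      have h1 := few_div (h := z.2 - z.1) (by omega)
        (((Ioc y (2 * J)).filter Nat.Prime).filter (fun l => l ∣ z.2 - z.1)) (by
          intro l hl
          rw [mem_filter, mem_filter] at hl
          exact ⟨hl.1.2, hl.2⟩)
      have h2 : Real.log ((z.2 - z.1 : ℕ) : ℝ) ≤ L := by
        apply Real.log_le_log
        · exact_mod_cast (by omega : 0 < z.2 - z.1)
        · exact_mod_cast (by omega : z.2 - z.1 ≤ J)
      have h3 : (1 : ℝ) / 2 ≤ Real.log 2 := by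
        have := Real.log_two_gt_d9
        linarith
      have h4 : (0 : ℝ) ≤ ((((Ioc y (2 * J)).filter Nat.Prime).filter
        (fun l => l ∣ z.2 - z.1)).card : ℝ) := Nat.cast_nonneg _
      nlinarith
    refine (sum_le_sum hz).trans ?_
    rw [sum_const, nsmul_eq_mul]
    have h1 : (((T ×ˢ T).filter (fun z => z.1 < z.2)).card : ℝ) ≤ k ^ 2 := by
      have : ((T ×ˢ T).filter (fun z => z.1 < z.2)).card ≤ k ^ 2 := by
        refine (card_filter_le _ _).trans ?_
        rw [card_product, hTk, sq]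
      exact_mod_cast this
    calc _ ≤ (k : ℝ) ^ 2 * (3 * L / y) := by gcongr
      _ ≤ (L / 3) * (3 * L / y) := by gcongr
      _ = L ^ 2 / y := by ring
      _ ≤ 1 := (div_le_one hy0).2 hy1)
  rw [hAc] at hmain
  refine hmain.trans ?_
  have e1 : Real.exp 1 ≤ 3 := by
    have := Real.exp_one_lt_d9
    linarith
  have e2 : (k : ℝ) * Real.log y / Real.log ((2 * J : ℕ) : ℝ) ≤ k * (3 * ℓ) / L := by gcongr
  have e3 : 0 ≤ (k : ℝ) * Real.log y / Real.log ((2 * J : ℕ) : ℝ) := by
    apply div_nonneg (by positivity)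
    linarith
  calc D ^ k * Real.exp 1 * (k * Real.log y / Real.log ((2 * J : ℕ) : ℝ)) ^ k * ((2 * J : ℕ) : ℝ)
      ≤ D ^ k * 3 * (k * (3 * ℓ) / L) ^ k * (2 * J) := by
        push_cast at e2 e3 ⊢
        gcongr
    _ = 6 * J * (D ^ k * (k * (3 * ℓ) / L) ^ k) := by ring
    _ = 6 * J * (3 * D * k * ℓ / L) ^ k := by
        rw [← mul_pow]
        congr 2
        ring

/-- double counting of subsets -/
theorem choose_sum (Q S : Finset ℕ) (R : ℕ → Finset ℕ) (hR : ∀ n ∈ S, R n ⊆ Q) (k : ℕ) :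
    ∑ n ∈ S, (R n).card.choose k = ∑ T ∈ Q.powersetCard k, (S.filter (fun n => T ⊆ R n)).card := by
  classical
  have h1 : ∀ n ∈ S, (R n).card.choose k = ∑ T ∈ Q.powersetCard k, if T ⊆ R n then 1 else 0 := by
    intro n hn
    rw [← card_powersetCard, ← card_filter]
    congr 1
    ext T
    rw [mem_powersetCard, mem_filter, mem_powersetCard]
    constructor
    · rintro ⟨h1, h2⟩
      exact ⟨⟨h1.trans (hR n hn), h2⟩, h1⟩
    · rintro ⟨⟨_, h2⟩, h3⟩
      exact ⟨h3, h2⟩
  rw [sum_congr rfl h1, sum_comm]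
  apply sum_congr rfl
  intro T _
  rw [card_filter]

/-- **the high moment** -/
theorem popular (Q S : Finset ℕ) (R : ℕ → Finset ℕ) (hR : ∀ n ∈ S, R n ⊆ Q) (k : ℕ) (Z p : ℝ)
    (hZ : ∀ T ∈ Q.powersetCard (k + 1), ((S.filter (fun n => T ⊆ R n)).card : ℝ) ≤ Z) (hp : 0 ≤ p)
    (hs : 0 < Q.card) (hZ0 : 0 ≤ Z) (hsum : (Q.card : ℝ) * p ≤ ∑ n ∈ S, ((R n).card : ℝ))
    (hS : ((k + 1 : ℕ) : ℝ) * S.card ≤ Q.card * p / 2) :
    (p / 2) ^ (k + 1) ≤ (S.card : ℝ) ^ k * Z := by
  classical
  have hs0 : (0 : ℝ) < Q.card := by exact_mod_cast hs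
  set f : ℕ → ℝ := fun n => (((R n).card - (k + 1) : ℕ) : ℝ) with hf
  have hf0 : ∀ n ∈ S, 0 ≤ f n := fun n _ => Nat.cast_nonneg _
  have h1 : (Q.card : ℝ) * p / 2 ≤ ∑ n ∈ S, f n := by
    have h2 : ∀ n ∈ S, ((R n).card : ℝ) ≤ f n + ((k + 1 : ℕ) : ℝ) := by
      intro n _
      rw [hf]
      dsimp only
      rw [← Nat.cast_add, Nat.cast_le]
      omega
    have h3 := sum_le_sum h2
    rw [sum_add_distrib, sum_const, nsmul_eq_mul] at h3
    linarith
  have h2 : ∀ n ∈ S, f n ^ (k + 1) ≤ ((k + 1).factorial : ℝ) * ((R n).card.choose (k + 1) : ℝ) := by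
    intro n _
    rw [hf]
    dsimp only
    have h3 : ((R n).card - (k + 1)) ^ (k + 1) ≤ (k + 1).factorial * (R n).card.choose (k + 1) := by
      rw [← Nat.descFactorial_eq_factorial_mul_choose]
      refine le_trans ?_ (Nat.pow_sub_le_descFactorial _ _)
      apply Nat.pow_le_pow_left
      omega
    exact_mod_cast h3
  have h3 : ∑ n ∈ S, f n ^ (k + 1) ≤ (Q.card : ℝ) ^ (k + 1) * Z := by
    calc ∑ n ∈ S, f n ^ (k + 1) ≤ ∑ n ∈ S, ((k + 1).factorial : ℝ) * ((R n).card.choose (k + 1) : ℝ) :=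
          sum_le_sum h2
      _ = ((k + 1).factorial : ℝ) * ((∑ n ∈ S, (R n).card.choose (k + 1) : ℕ) : ℝ) := by
          push_cast
          rw [mul_sum]
      _ = ((k + 1).factorial : ℝ) * ∑ T ∈ Q.powersetCard (k + 1),
            ((S.filter (fun n => T ⊆ R n)).card : ℝ) := by
          rw [choose_sum Q S R hR]
          push_cast
          rfl
      _ ≤ ((k + 1).factorial : ℝ) * ∑ _T ∈ Q.powersetCard (k + 1), Z := by
          apply mul_le_mul_of_nonneg_left (sum_le_sum hZ) (Nat.cast_nonneg _)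
      _ = ((k + 1).factorial * Q.card.choose (k + 1) : ℕ) * Z := by
          rw [sum_const, card_powersetCard, nsmul_eq_mul]
          push_cast
          ring
      _ ≤ (Q.card : ℝ) ^ (k + 1) * Z := by
          apply mul_le_mul_of_nonneg_right _ hZ0
          rw [← Nat.descFactorial_eq_factorial_mul_choose]
          exact_mod_cast Nat.descFactorial_le_pow _ _
  have h4 : (∑ n ∈ S, f n) ^ (k + 1) ≤ (S.card : ℝ) ^ k * ∑ n ∈ S, f n ^ (k + 1) :=
    pow_sum_le_card_mul_sum_pow hf0 k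
  have h5 : ((Q.card : ℝ) * p / 2) ^ (k + 1) ≤ (S.card : ℝ) ^ k * ((Q.card : ℝ) ^ (k + 1) * Z) := by
    calc ((Q.card : ℝ) * p / 2) ^ (k + 1) ≤ (∑ n ∈ S, f n) ^ (k + 1) := by
          apply pow_le_pow_left₀ _ h1
          positivity
      _ ≤ _ := h4
      _ ≤ _ := by gcongr
  have h6 : ((Q.card : ℝ) * p / 2) ^ (k + 1) = (Q.card : ℝ) ^ (k + 1) * (p / 2) ^ (k + 1) := by
    rw [← mul_pow]
    congr 1
    ring
  have h7 : (S.card : ℝ) ^ k * ((Q.card : ℝ) ^ (k + 1) * Z) =
      (Q.card : ℝ) ^ (k + 1) * ((S.card : ℝ) ^ k * Z) := by ring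
  rw [h6, h7] at h5
  exact le_of_mul_le_mul_left h5 (by positivity)

end Pool.Agent.T2q87.IP
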